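import Pool.Agent.Y910.G.P5
import Pool.Agent.Y910.E.E10

/-!
Bounded number of large integer points on all irreducible plane curves (helper28).
The monic case is `Pool.Agent.Y910.E.monic_few` of the starting library.
-/

open Polynomial Finset IntermediateField

namespace Pool.Agent.V8H28.Few

open Pool.Agent.H322R2 Pool.Agent.Y910.S Pool.Agent.Y910.G Pool.Agent.Y910

theorem main (d : ℕ) : ∃ C : ℕ,
    ∀ F : MvPolynomial (Fin 2) ℤ, F.totalDegree = d →
    Irreducible (MvPolynomial.map (Int.castRingHom ℚ) F) →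
    ∀ (L : Type) [Field L] [Algebra ℚ L] (π : MvPolynomial (Fin 2) ℚ →ₐ[ℚ] L),
    (∀ w, π w = 0 ↔ MvPolynomial.map (Int.castRingHom ℚ) F ∣ w) →
    (∀ z : L, ∃ w1 w2, π w2 ≠ 0 ∧ π w2 * z = π w1) →
      (∀ s : Finset (ℤ × ℤ), (∀ P ∈ s, MvPolynomial.eval ![P.1, P.2] F = 0 ∧
        (C * len F) ^ C < max P.1.natAbs P.2.natAbs) → s.card ≤ C) ∨
      ∃ A : ValuationSubring L, (∀ A' : ValuationSubring L,
        ((∀ q : ℚ, algebraMap ℚ L q ∈ A') ∧
          ¬ (π (MvPolynomial.X 0) ∈ A' ∧ π (MvPolynomial.X 1) ∈ A')) ↔ A' = A) ∧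
        ∃ g : ℚ[X], g.Monic ∧ Irreducible g ∧
          Nonempty (IsLocalRing.ResidueField A ≃+* AdjoinRoot g) ∧ g.natDegree ≤ 2 ∧
          ∃ η : ℝ, aeval η g = 0 := by
  by_cases hd : 1 ≤ d
  swap
  · refine ⟨0, fun F hF hirr => ?_⟩
    have := totalDegree_pos F hirr
    omega
  obtain ⟨M, N0, hmon⟩ := E.monic_few d hd
  obtain ⟨K, hK⟩ : ∃ K, K = (d + 1) * (2 * (1 + d) ^ d) := ⟨_, rfl⟩
  refine ⟨K + (d * (M + 1) + 1) + N0, ?_⟩
  intro F hFd hirr L _ _ π hker hsurj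
  have hF0 : F ≠ 0 := by
    rintro rfl
    rw [map_zero] at hirr
    exact hirr.ne_zero rfl
  obtain ⟨u, hu, hcu⟩ := exists_u F hF0
  have hcl : lc F u ≠ 0 := hcu
  have hFd1 : 1 ≤ F.totalDegree := by omega
  have hlen1 : 1 ≤ len F := len_pos hF0
  have hlenR : (1 : ℝ) ≤ len F := by exact_mod_cast hlen1
  obtain ⟨T, hT⟩ : ∃ T : ℕ, T = 2 * (len F * (1 + d) ^ d) ^ d := ⟨_, rfl⟩
  have hBpos : 1 ≤ len F * (1 + d) ^ d := Nat.mul_pos hlen1 (by positivity)
  have hT2 : 2 ≤ T := by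
    rw [hT]
    have := Nat.one_le_pow d _ hBpos
    omega
  have hpn2 : pn (pn zn) (F2 F u) ≤ (len F : ℝ) * (1 + d) ^ d := by
    refine (pn_toB_le u F).trans ?_
    rw [hFd]
    apply mul_le_mul_of_nonneg_left _ (by linarith)
    apply pow_le_pow_left₀ (by positivity)
    have : (u : ℝ) ≤ d := by rw [← hFd]; exact_mod_cast hu
    linarith
  have hB1 : (1 : ℝ) ≤ (len F : ℝ) * (1 + d) ^ d := by exact_mod_cast hBpos
  have hpnG' : pn (pn zn) (GG F u) ≤ ((len F : ℝ) * (1 + d) ^ d) ^ d := by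
    rw [← hFd]
    rw [← hFd] at hpn2 hB1
    exact pn_GG hcl hB1 hpn2 hFd1
  have hpnG : pn (pn zn) (GG F u) ≤ T := by
    refine hpnG'.trans ?_
    rw [hT]
    push_cast
    have : 0 ≤ ((len F : ℝ) * (1 + d) ^ d) ^ d := by positivity
    linarith
  have hzero : ∀ x y : ℤ, MvPolynomial.eval ![x, y] F = 0 →
      ev (y - u * x) (lc F u * x) (GG F u) = 0 := by
    intro x y hxy
    rw [ev_GG hcl hFd1]
    have h1 := ev_toB (S := ℤ) x (y - u * x) (shE ℤ u F)
    have h2 : MvPolynomial.eval₂ (Int.castRingHom ℤ) ![x, y - u * x] (shE ℤ u F)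
        = MvPolynomial.eval ![x, y - u * x] (shE ℤ u F) := by
      rw [MvPolynomial.eval, MvPolynomial.coe_eval₂Hom]
      congr 1
    rw [h2, eval_shE] at h1
    have h3 : (![(![x, y - u * x] : Fin 2 → ℤ) 0,
        (![x, y - u * x] : Fin 2 → ℤ) 1 + u * (![x, y - u * x] : Fin 2 → ℤ) 0]
        : Fin 2 → ℤ) = ![x, y] := by
      ext i
      fin_cases i
      · simp
      · simp
    rw [h3, hxy] at h1
    rw [F2, h1, mul_zero]
  obtain ⟨hev, htr, hgen, hpl⟩ := Y852.FFRed.ff_reduce F hirr u hcl hFd1 π hker hsurj _ _ rfl rfl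
  have hTR : (1 : ℝ) ≤ T := by exact_mod_cast (by omega : 1 ≤ T)
  have hlc1 : 1 ≤ |((lc F u : ℤ) : ℝ)| := by
    have : 1 ≤ |lc F u| := Int.one_le_abs hcl
    exact_mod_cast this
  -- points with a small new coordinate are small
  have key : ∀ x y : ℤ, MvPolynomial.eval ![x, y] F = 0 → |y - u * x| ≤ ((T : ℕ) : ℤ) ^ M →
      max x.natAbs y.natAbs ≤ (K * len F) ^ (K + (d * (M + 1) + 1)) := by
    intro x y hxy hak
    obtain ⟨a, ha⟩ : ∃ a : ℤ, a = y - u * x := ⟨_, rfl⟩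
    have hz := hzero x y hxy
    rw [← ha] at hak hz
    have hbb := abs_b_le (GG_monic hcl) (GG_natDegree hcl) (GG_TD hcl) hTR hpnG a (lc F u * x) hz
    have hxb : |(x : ℝ)| ≤ T * max 1 |(a : ℝ)| := by
      refine le_trans ?_ hbb
      push_cast
      rw [abs_mul]
      exact le_mul_of_one_le_left (abs_nonneg _) hlc1
    obtain ⟨W, hW⟩ : ∃ W : ℕ, W = T ^ M := ⟨_, rfl⟩
    have hW1 : 1 ≤ W := by rw [hW]; exact Nat.one_le_pow _ _ (by omega)
    have hWR : (1 : ℝ) ≤ W := by exact_mod_cast hW1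
    have haR : |(a : ℝ)| ≤ W := by
      rw [hW]
      exact_mod_cast hak
    have hmax : max 1 |(a : ℝ)| ≤ W := max_le hWR haR
    have hx : |(x : ℝ)| ≤ T * W := hxb.trans (mul_le_mul_of_nonneg_left hmax (by linarith))
    have hy : |(y : ℝ)| ≤ (d + 1) * (T * W) := by
      have h1 : (y : ℝ) = a + u * x := by rw [ha]; push_cast; ring
      rw [h1]
      refine (abs_add_le _ _).trans ?_
      rw [abs_mul, Nat.abs_cast]
      have h2 : (u : ℝ) ≤ d := by rw [← hFd]; exact_mod_cast hu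
      have h3 : (u : ℝ) * |(x : ℝ)| ≤ d * (T * W) :=
        mul_le_mul h2 hx (abs_nonneg _) (by positivity)
      have h4 : (W : ℝ) ≤ T * W := le_mul_of_one_le_left (by linarith) hTR
      linarith
    have hx' : |(x : ℝ)| ≤ (d + 1) * (T * W) := by
      refine hx.trans ?_
      apply le_mul_of_one_le_left (by positivity)
      have : (0 : ℝ) ≤ d := by positivity
      linarith
    have hnum := num_red d M (len F) 1 T hd hlen1 le_rfl hT K hK
    rw [one_mul, ← hW, mul_one] at hnum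
    have hbase : 1 ≤ K * len F := by
      rw [hK]
      have h5 : 1 ≤ 2 * (1 + d) ^ d := Nat.mul_pos (by norm_num) (by positivity)
      calc 1 = 1 * 1 * 1 := by ring
        _ ≤ (d + 1) * (2 * (1 + d) ^ d) * len F :=
          Nat.mul_le_mul (Nat.mul_le_mul (by omega) h5) hlen1
    have hfin : (d + 1) * (T * W) ≤ (K * len F) ^ (K + (d * (M + 1) + 1)) :=
      hnum.trans (Nat.pow_le_pow_right hbase (by omega))
    apply max_le
    · have h1 : (x.natAbs : ℝ) ≤ ((((d + 1) * (T * W)) : ℕ) : ℝ) := by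
        rw [Nat.cast_natAbs, Int.cast_abs]; push_cast; exact hx'
      exact (by exact_mod_cast h1 : x.natAbs ≤ (d + 1) * (T * W)).trans hfin
    · have h1 : (y.natAbs : ℝ) ≤ ((((d + 1) * (T * W)) : ℕ) : ℝ) := by
        rw [Nat.cast_natAbs, Int.cast_abs]; push_cast; exact hy
      exact (by exact_mod_cast h1 : y.natAbs ≤ (d + 1) * (T * W)).trans hfin
  have hGTD := GG_TD hcl
  rcases hmon T hT2 (GG F u) (GG_monic hcl) (by rw [GG_natDegree hcl, hFd]) (GG_prime hcl hFd1 hirr)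
    (fun j => by rw [← hFd]; exact (hGTD.2 j).trans (Nat.sub_le _ _)) hpnG L _ _ hev htr hgen with
    h | ⟨A, hA, g, hgm, hgi, hres, hg2, η, hη⟩
  · left
    intro s hs
    have hlcZ : (lc F u : ℤ) ≠ 0 := hcl
    have hinj : Set.InjOn (fun P : ℤ × ℤ => (P.2 - u * P.1, lc F u * P.1)) (s : Set (ℤ × ℤ)) := by
      rintro ⟨x, y⟩ - ⟨x', y'⟩ - hPP
      simp only [Prod.mk.injEq] at hPP
      obtain ⟨h1, h2⟩ := hPP
      have h3 : x = x' := mul_left_cancel₀ hlcZ h2
      subst h3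
      simp only [Prod.mk.injEq, true_and]
      linarith
    rw [← Finset.card_image_of_injOn hinj]
    refine (h _ ?_).trans (by omega)
    intro P' hP'
    rw [Finset.mem_image] at hP'
    obtain ⟨P, hP, rfl⟩ := hP'
    obtain ⟨h1, h2⟩ := hs P hP
    refine ⟨hzero _ _ h1, ?_⟩
    by_contra hcon
    rw [not_lt] at hcon
    have h3 := key P.1 P.2 h1 hcon
    have hbase : 1 ≤ K * len F := by
      rw [hK]
      have h5 : 1 ≤ 2 * (1 + d) ^ d := Nat.mul_pos (by norm_num) (by positivity)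
      calc 1 = 1 * 1 * 1 := by ring
        _ ≤ (d + 1) * (2 * (1 + d) ^ d) * len F :=
          Nat.mul_le_mul (Nat.mul_le_mul (by omega) h5) hlen1
    have h4 : (K * len F) ^ (K + (d * (M + 1) + 1))
        ≤ ((K + (d * (M + 1) + 1) + N0) * len F) ^ (K + (d * (M + 1) + 1) + N0) := by
      refine (Nat.pow_le_pow_right hbase (Nat.le_add_right _ N0)).trans ?_
      exact Nat.pow_le_pow_left (Nat.mul_le_mul_right _ (by omega)) _
    exact absurd h2 (not_lt.2 (h3.trans h4))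
  · right
    refine ⟨A, ?_, g, hgm, hgi, hres, hg2, η, hη⟩
    intro A'
    rw [← hA A']
    apply and_congr_right
    intro hQ
    exact not_congr (hpl A' hQ)

end Pool.Agent.V8H28.Few
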